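import Mathlib
import Pool.Agent.Q135.LeafTree

/-! The value of the leaf-removal game on every coloured tree (MP_1304b2_co, Q1). -/

namespace Pool.Agent.Results.MP_1304b2_co.LeafRemovalValue

open Finset Q135.LeafTree

/-- A partizan ruleset: `white p q` (`black p q`) says that White (Black) may move from `p` to `q`. -/
structure Ruleset (P : Type*) where
  white : P → P → Prop
  black : P → P → Prop

/-- Disjunctive sum. -/
def Ruleset.sum {P Q : Type*} (A : Ruleset P) (B : Ruleset Q) : Ruleset (P × Q) where
  white a b := (A.white a.1 b.1 ∧ b.2 = a.2) ∨ (b.1 = a.1 ∧ B.white a.2 b.2)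
  black a b := (A.black a.1 b.1 ∧ b.2 = a.2) ∨ (b.1 = a.1 ∧ B.black a.2 b.2)

/-- The negative: the roles of the players are exchanged. -/
def Ruleset.neg {P : Type*} (A : Ruleset P) : Ruleset P where
  white := A.black
  black := A.white

/-- The integers as games: White (Left) moves from `m > 0` to `m - 1`, Black (Right) from `m < 0`
to `m + 1`. -/
def integers : Ruleset ℤ where
  white m n := 0 < m ∧ n = m - 1
  black m n := m < 0 ∧ n = m + 1

/-- White wins (normal play) when Black moves first: to every move of Black there is a reply of White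
after which White again wins when Black moves first. -/
inductive WhiteWinsSecond {P : Type*} (A : Ruleset P) : P → Prop
  | intro (p : P) (reply : ∀ q, A.black p q → P) (legal : ∀ q h, A.white q (reply q h))
      (wins : ∀ q h, WhiteWinsSecond A (reply q h)) : WhiteWinsSecond A p

/-- Black wins when White moves first. -/
def BlackWinsSecond {P : Type*} (A : Ruleset P) (p : P) : Prop := WhiteWinsSecond A.neg p

/-- The position `p` has the value `n` in Conway's sense: the player who moves second wins `p - n`. -/
def HasValue {P : Type*} (A : Ruleset P) (p : P) (n : ℤ) : Prop :=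
  WhiteWinsSecond (A.sum integers.neg) (p, n) ∧ BlackWinsSecond (A.sum integers.neg) (p, n)

/-- `v` is a leaf of the subgraph of `G` induced on `S`: a vertex of `S` with at most one neighbour in
`S`. -/
def IsLeaf {V : Type*} (G : SimpleGraph V) (S : Finset V) (v : V) : Prop :=
  v ∈ S ∧ ∀ a ∈ S, ∀ b ∈ S, G.Adj v a → G.Adj v b → a = b

/-- The leaf-removal game. A position is the set of the remaining vertices; `c v = true` means that
`v` is white. -/
def leafRemoval {V : Type*} [DecidableEq V] (G : SimpleGraph V) (c : V → Bool) : Ruleset (Finset V) where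
  white S S' := ∃ v, IsLeaf G S v ∧ c v = true ∧ S' = S.erase v
  black S S' := ∃ v, IsLeaf G S v ∧ c v = false ∧ S' = S.erase v

/-- `y` is a neighbour of `v` and its side of the tree contains the top `s` of a blocking triple
`p, q, s` of the tree rooted at `v`: a path `p, q, s` leading away from `v`, where `p` and `q` have
the same colour and `s` has the other colour (`p = v` is allowed). -/
def BlockedBranch {V : Type*} (G : SimpleGraph V) (c : V → Bool) (v y : V) : Prop :=
  G.Adj v y ∧ ∃ p q s, G.Adj p q ∧ G.Adj q s ∧ G.dist v s = G.dist v p + 2 ∧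
    G.dist y s < G.dist v s ∧ c p = c q ∧ c s ≠ c q

/-- At most one neighbour of `v` has a blocked branch. -/
def Essential {V : Type*} (G : SimpleGraph V) (c : V → Bool) (v : V) : Prop :=
  ∀ y y', BlockedBranch G c v y → BlockedBranch G c v y' → y = y'

open Classical in
/-- White essential vertices minus black essential vertices. -/
noncomputable def essentialDifference {V : Type*} [Fintype V] (G : SimpleGraph V) (c : V → Bool) : ℤ :=
  ((univ.filter (fun v => Essential G c v ∧ c v = true)).card : ℤ) -
    ((univ.filter (fun v => Essential G c v ∧ c v = false)).card : ℤ)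

theorem blocked_of_branch {V : Type*} [Fintype V] {G : SimpleGraph V} (hG : G.IsTree) {c : V → Bool} :
    ∀ (n : ℕ) (v y p q s : V), G.Adj v y → G.Adj p q → G.Adj q s → G.dist v p = n →
      G.dist v s = G.dist v p + 2 → G.dist y s < G.dist v s → c p = c q → c s ≠ c q →
      Blocked G c univ v y := by
  intro n
  induction n with
  | zero =>
    intro v y p q s hvy hpq hqs hn hd hys hc hc'
    have hvp : v = p := (hG.connected.dist_eq_zero_iff).1 hn
    subst hvp
    have hqy : q = y := by
      refine nearer_unique hG (t := s) (u := v) hpq.symm hvy.symm ?_ ?_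
      · rw [SimpleGraph.dist_comm (u := s) (v := q), SimpleGraph.dist_comm (u := s) (v := v),
          SimpleGraph.dist_eq_one_iff_adj.2 hqs, hd, hn]
        norm_num
      · rw [SimpleGraph.dist_comm (u := s) (v := y), SimpleGraph.dist_comm (u := s) (v := v)]
        exact hys
    subst hqy
    refine .triple (mem_univ _) (mem_univ _) (mem_univ _) hpq hqs ?_ hc hc'
    rintro rfl
    rw [SimpleGraph.dist_self] at hd
    omega
  | succ n ih =>
    intro v y p q s hvy hpq hqs hn hd hys hc hc'
    have hvp : v ≠ p := by
      rintro rfl
      rw [SimpleGraph.dist_self] at hn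
      omega
    obtain ⟨y', hy1, hy2⟩ := exists_toward hG (x := p) (v := v) hvp
    have hy3 : G.dist p v = G.dist p y' + 1 := by
      rcases hG.dist_eq_dist_add_one_of_adj p hy1 with h | h <;> omega
    have hps : G.dist s p ≤ 2 := by
      have h1 := hG.connected.dist_triangle (u := s) (v := q) (w := p)
      rw [SimpleGraph.dist_eq_one_iff_adj.2 hqs.symm, SimpleGraph.dist_eq_one_iff_adj.2 hpq.symm] at h1
      exact h1
    have hy4 : G.dist s y' < G.dist s v := by
      have h1 := hG.connected.dist_triangle (u := s) (v := p) (w := y')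
      rw [SimpleGraph.dist_comm (u := s) (v := v), hd, SimpleGraph.dist_comm (u := v) (v := p)]
      omega
    have hyy : y' = y := by
      refine nearer_unique hG hy1 hvy.symm hy4 ?_
      rw [SimpleGraph.dist_comm (u := s) (v := y), SimpleGraph.dist_comm (u := s) (v := v)]
      exact hys
    subst hyy
    have hyp : G.dist y' p = n := by
      rw [SimpleGraph.dist_comm (u := v) (v := p)] at hn
      rw [SimpleGraph.dist_comm (u := y') (v := p)]
      omega
    have hyv : G.dist v s = G.dist y' s + 1 := by
      have := hG.dist_eq_dist_add_one_of_adj s hvy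
      rw [SimpleGraph.dist_comm (u := s) (v := y'), SimpleGraph.dist_comm (u := s) (v := v)] at this
      omega
    have hyS : G.dist y' s = G.dist y' p + 2 := by omega
    have hys' : y' ≠ s := by
      rintro rfl
      rw [SimpleGraph.dist_self] at hyS
      omega
    obtain ⟨z, hz1, hz2⟩ := exists_toward hG (x := s) (v := y') hys'
    have hz3 : G.dist z s < G.dist y' s := by
      rw [SimpleGraph.dist_comm (u := z) (v := s), SimpleGraph.dist_comm (u := y') (v := s)]
      exact hz2
    have := ih y' z p q s hz1.symm hpq hqs hyp hyS hz3 hc hc'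
    refine .step (mem_univ _) hvy ?_ this
    rintro rfl
    omega

theorem branch_of_blocked {V : Type*} [Fintype V] {G : SimpleGraph V} (hG : G.IsTree) {c : V → Bool}
    {v y : V} (h : Blocked G c univ v y) : BlockedBranch G c v y := by
  induction h with
  | @triple x y z hx hy hz hxy hyz hzx hc hc' =>
    have h1 : G.dist z y = 1 := SimpleGraph.dist_eq_one_iff_adj.2 hyz.symm
    have h2 : G.dist z y < G.dist z x := by
      refine farther hG hyz.symm hxy hzx ?_
      rw [SimpleGraph.dist_self, h1]
      norm_num
    have h3 : G.dist z x = 2 := by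
      rcases hG.dist_eq_dist_add_one_of_adj z hxy with h | h <;> omega
    refine ⟨hxy, x, y, z, hxy, hyz, ?_, ?_, hc, hc'⟩
    · rw [SimpleGraph.dist_self, SimpleGraph.dist_comm, h3]
    · rw [SimpleGraph.dist_comm, SimpleGraph.dist_comm (u := x) (v := z)]
      exact h2
  | @step x y z hx hxy hzx h ih =>
    obtain ⟨hyz, p, q, s, hpq, hqs, hd, hzs, hc, hc'⟩ := ih
    have h1 : G.dist s y < G.dist s x := by
      refine farther hG (a := z) hyz.symm hxy hzx ?_
      rw [SimpleGraph.dist_comm (u := s) (v := z), SimpleGraph.dist_comm (u := s) (v := y)]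
      exact hzs
    have h2 : G.dist s x = G.dist s y + 1 := by
      rcases hG.dist_eq_dist_add_one_of_adj s hxy with h | h <;> omega
    rw [SimpleGraph.dist_comm (u := s) (v := x), SimpleGraph.dist_comm (u := s) (v := y)] at h2
    rw [SimpleGraph.dist_comm (u := s) (v := x), SimpleGraph.dist_comm (u := s) (v := y)] at h1
    refine ⟨hxy, p, q, s, hpq, hqs, ?_, h1, hc, hc'⟩
    have h3 : G.dist x p ≤ G.dist y p + 1 := by
      have := hG.connected.dist_triangle (u := x) (v := y) (w := p)
      rw [SimpleGraph.dist_eq_one_iff_adj.2 hxy] at this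
      omega
    have h4 : G.dist x s ≤ G.dist x p + 2 := by
      have h5 := hG.connected.dist_triangle (u := x) (v := p) (w := s)
      have h6 := hG.connected.dist_triangle (u := p) (v := q) (w := s)
      rw [SimpleGraph.dist_eq_one_iff_adj.2 hpq, SimpleGraph.dist_eq_one_iff_adj.2 hqs] at h6
      omega
    omega

theorem essential_iff {V : Type*} [Fintype V] {G : SimpleGraph V} (hG : G.IsTree) {c : V → Bool} (v : V) :
    Essential G c v ↔ Ess G c univ v := by
  have key : ∀ y, BlockedBranch G c v y ↔ Blocked G c univ v y := by
    intro y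
    constructor
    · rintro ⟨h1, p, q, s, h2, h3, h4, h5, h6, h7⟩
      exact blocked_of_branch hG _ v y p q s h1 h2 h3 rfl h4 h5 h6 h7
    · exact branch_of_blocked hG
  unfold Essential Ess
  simp only [key]

theorem difference_eq {V : Type*} [Fintype V] {G : SimpleGraph V} (hG : G.IsTree) (c : V → Bool) :
    essentialDifference G c = F G c univ := by
  classical
  unfold essentialDifference F
  rw [Finset.card_filter, Finset.card_filter]
  push_cast
  rw [← Finset.sum_sub_distrib]
  refine Finset.sum_congr rfl fun v _ => ?_
  by_cases he : Ess G c univ v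
  · have he' := (essential_iff hG v).2 he
    cases hcv : c v <;> simp [he, he', sg]
  · have he' : ¬ Essential G c v := fun h => he ((essential_iff hG v).1 h)
    simp [he, he']

section play

variable {V : Type*} [Fintype V] [DecidableEq V] {G : SimpleGraph V}

omit [Fintype V] [DecidableEq V] in
theorem ess_not (c : V → Bool) (S : Finset V) : F G (fun v => !(c v)) S = - F G c S := F_not

theorem F_erase_ge (hG : G.IsTree) {c : V → Bool} {S : Finset V} {l : V}
    (hl : IsLeaf G S l) (hc : c l = false) : F G c S + 1 ≤ F G c (S.erase l) := by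
  have := F_erase_le (c := fun v => !(c v)) hG (l := l) (S := S) hl (by simp [hc])
  rw [ess_not, ess_not] at this
  linarith

theorem exists_good_black (hG : G.IsTree) {c : V → Bool} {S : Finset V} (hS : Convex G S)
    (hneg : F G c S < 0) :
    ∃ l, IsLeaf G S l ∧ c l = false ∧ F G c (S.erase l) = F G c S + 1 := by
  obtain ⟨l, h1, h2, h3⟩ := exists_good_leaf (c := fun v => !(c v)) hG hS (by rw [ess_not]; linarith)
  refine ⟨l, h1, by simpa using h2, ?_⟩
  rw [ess_not, ess_not] at h3
  linarith

theorem white_second (hG : G.IsTree) (c : V → Bool) :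
    ∀ (k : ℕ) (S : Finset V) (n : ℤ), S.card + n.natAbs ≤ k → Convex G S → n ≤ F G c S →
      WhiteWinsSecond ((leafRemoval G c).sum integers.neg) (S, n) := by
  intro k
  induction k using Nat.strong_induction_on with
  | _ k ih =>
    intro S n hk hS hn
    -- White's replies
    have reply : ∀ (T : Finset V) (m : ℤ), T.card + m.natAbs < k → Convex G T → m + 1 ≤ F G c T →
        ∃ r : Finset V × ℤ, ((leafRemoval G c).sum integers.neg).white (T, m) r ∧
          WhiteWinsSecond ((leafRemoval G c).sum integers.neg) r := by
      intro T m hkT hT hm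
      by_cases hpos : 0 < F G c T
      · obtain ⟨l, h1, h2, h3⟩ := exists_good_leaf (c := c) hG hT hpos
        refine ⟨(T.erase l, m), Or.inl ⟨⟨l, h1, h2, rfl⟩, rfl⟩, ?_⟩
        refine ih (T.card + m.natAbs) hkT _ _ ?_ (hT.erase hG h1) (by rw [h3]; linarith)
        have := Finset.card_erase_le (a := l) (s := T)
        omega
      · refine ⟨(T, m + 1), Or.inr ⟨rfl, ?_, rfl⟩, ?_⟩
        · show m < 0
          linarith
        · refine ih (T.card + m.natAbs) hkT _ _ ?_ hT hm
          omega
    have answer : ∀ q, ((leafRemoval G c).sum integers.neg).black (S, n) q →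
        ∃ r : Finset V × ℤ, ((leafRemoval G c).sum integers.neg).white q r ∧
          WhiteWinsSecond ((leafRemoval G c).sum integers.neg) r := by
      rintro ⟨T, m⟩ h
      rcases h with ⟨⟨l, h1, h2, h3⟩, h4⟩ | ⟨h1, h2, h3⟩
      · simp only at h3 h4
        subst h3 h4
        refine reply _ _ ?_ (hS.erase hG h1) ?_
        · have h5 : (S.erase l).card < S.card := Finset.card_erase_lt_of_mem h1.1
          omega
        · have := F_erase_ge (c := c) hG h1 h2
          linarith
      · simp only at h1 h2 h3
        subst h1 h3
        exact reply _ _ (by omega) hS (by linarith)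
    choose! f hf1 hf2 using answer
    exact .intro _ (fun q _ => f q) (fun q h => hf1 q h) (fun q h => hf2 q h)

theorem black_second (hG : G.IsTree) (c : V → Bool) :
    ∀ (k : ℕ) (S : Finset V) (n : ℤ), S.card + n.natAbs ≤ k → Convex G S → F G c S ≤ n →
      BlackWinsSecond ((leafRemoval G c).sum integers.neg) (S, n) := by
  intro k
  induction k using Nat.strong_induction_on with
  | _ k ih =>
    intro S n hk hS hn
    have reply : ∀ (T : Finset V) (m : ℤ), T.card + m.natAbs < k → Convex G T → F G c T + 1 ≤ m →
        ∃ r : Finset V × ℤ, ((leafRemoval G c).sum integers.neg).black (T, m) r ∧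
          BlackWinsSecond ((leafRemoval G c).sum integers.neg) r := by
      intro T m hkT hT hm
      by_cases hneg : F G c T < 0
      · obtain ⟨l, h1, h2, h3⟩ := exists_good_black (c := c) hG hT hneg
        refine ⟨(T.erase l, m), Or.inl ⟨⟨l, h1, h2, rfl⟩, rfl⟩, ?_⟩
        refine ih (T.card + m.natAbs) hkT _ _ ?_ (hT.erase hG h1) (by rw [h3]; linarith)
        have := Finset.card_erase_le (a := l) (s := T)
        omega
      · refine ⟨(T, m - 1), Or.inr ⟨rfl, ?_, rfl⟩, ?_⟩
        · show 0 < m
          linarith
        · refine ih (T.card + m.natAbs) hkT _ _ ?_ hT (by linarith)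
          omega
    have answer : ∀ q, ((leafRemoval G c).sum integers.neg).white (S, n) q →
        ∃ r : Finset V × ℤ, ((leafRemoval G c).sum integers.neg).black q r ∧
          BlackWinsSecond ((leafRemoval G c).sum integers.neg) r := by
      rintro ⟨T, m⟩ h
      rcases h with ⟨⟨l, h1, h2, h3⟩, h4⟩ | ⟨h1, h2, h3⟩
      · simp only at h3 h4
        subst h3 h4
        refine reply _ _ ?_ (hS.erase hG h1) ?_
        · have h5 : (S.erase l).card < S.card := Finset.card_erase_lt_of_mem h1.1
          omega
        · have := F_erase_le (c := c) hG h1 h2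
          linarith
      · simp only at h1 h2 h3
        subst h1 h3
        exact reply _ _ (by omega) hS (by linarith)
    choose! f hf1 hf2 using answer
    exact .intro _ (fun q _ => f q) (fun q h => hf1 q h) (fun q h => hf2 q h)

/-- White moving first with `n < F` has a winning move. -/
theorem white_first (hG : G.IsTree) (c : V → Bool) {S : Finset V} {n : ℤ} (hS : Convex G S)
    (hn : n < F G c S) : ∃ r : Finset V × ℤ, ((leafRemoval G c).sum integers.neg).white (S, n) r ∧
      WhiteWinsSecond ((leafRemoval G c).sum integers.neg) r := by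
  by_cases hpos : 0 < F G c S
  · obtain ⟨l, h1, h2, h3⟩ := exists_good_leaf (c := c) hG hS hpos
    exact ⟨(S.erase l, n), Or.inl ⟨⟨l, h1, h2, rfl⟩, rfl⟩,
      white_second hG c _ _ _ le_rfl (hS.erase hG h1) (by rw [h3]; linarith)⟩
  · refine ⟨(S, n + 1), Or.inr ⟨rfl, ?_, rfl⟩, white_second hG c _ _ _ le_rfl hS (by linarith)⟩
    show n < 0
    linarith

theorem black_first (hG : G.IsTree) (c : V → Bool) {S : Finset V} {n : ℤ} (hS : Convex G S)
    (hn : F G c S < n) : ∃ r : Finset V × ℤ, ((leafRemoval G c).sum integers.neg).black (S, n) r ∧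
      BlackWinsSecond ((leafRemoval G c).sum integers.neg) r := by
  by_cases hneg : F G c S < 0
  · obtain ⟨l, h1, h2, h3⟩ := exists_good_black (c := c) hG hS hneg
    exact ⟨(S.erase l, n), Or.inl ⟨⟨l, h1, h2, rfl⟩, rfl⟩,
      black_second hG c _ _ _ le_rfl (hS.erase hG h1) (by rw [h3]; linarith)⟩
  · refine ⟨(S, n - 1), Or.inr ⟨rfl, ?_, rfl⟩, black_second hG c _ _ _ le_rfl hS (by linarith)⟩
    show 0 < n
    linarith

end play

/-- The two players cannot both win. -/
theorem no_both {P : Type*} (A : Ruleset P) {q : P} (hq : WhiteWinsSecond A q) :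
    ∀ p, A.white p q → ¬ BlackWinsSecond A p := by
  induction hq with
  | intro q reply legal wins ih =>
    intro p hpq hb
    cases hb with
    | intro _ reply' legal' wins' =>
      have h1 := legal' q hpq
      have h2 := wins' q hpq
      exact ih _ h1 _ (legal _ h1) h2

theorem no_both' {P : Type*} (A : Ruleset P) {q : P} (hq : BlackWinsSecond A q) (p : P)
    (hpq : A.black p q) : ¬ WhiteWinsSecond A p := by
  intro hw
  exact no_both A.neg hq p hpq hw

/-- **Theorem.** For every finite tree `G` and every colouring `c`, the leaf-removal game on `G` has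
exactly one integer value, the number of white essential vertices minus the number of black essential
vertices. -/
theorem result {V : Type*} [Fintype V] [DecidableEq V] (G : SimpleGraph V) (hG : G.IsTree)
    (c : V → Bool) (n : ℤ) :
    HasValue (leafRemoval G c) Finset.univ n ↔ n = essentialDifference G c := by
  rw [difference_eq hG]
  have hS : Convex G (Finset.univ : Finset V) := fun _ _ _ _ _ _ _ => mem_univ _
  constructor
  · rintro ⟨h1, h2⟩
    rcases lt_trichotomy n (F G c univ) with h | h | h
    · obtain ⟨r, hr1, hr2⟩ := white_first hG c hS h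
      exact absurd h2 (no_both _ hr2 _ hr1)
    · exact h
    · obtain ⟨r, hr1, hr2⟩ := black_first hG c hS h
      exact absurd h1 (no_both' _ hr2 _ hr1)
  · rintro rfl
    exact ⟨white_second hG c _ _ _ le_rfl hS le_rfl, black_second hG c _ _ _ le_rfl hS le_rfl⟩

end Pool.Agent.Results.MP_1304b2_co.LeafRemovalValue
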